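import Mathlib
import Pool.Agent.H568Z.AutDefs
import Pool.Agent.H568Z.GrigLow

set_option autoImplicit false

namespace Pool.Agent.Results.MP_b4aa87_al.AIntermediate

open Pool.Agent.H568Z Pool.Agent.H568Z.AutG Pool.Agent.H568Z.Grig

lemma aut_eq {G : Type} [Group G] (S : Finset G) (n : ℕ) :
    autGrowth S n = ((fun g => MulAction.orbit (MulAut G) g) '' Conj.ball S n).ncard := by
  unfold autGrowth
  congr 1
  ext O
  exact ⟨fun ⟨g, hg, h⟩ => ⟨g, hg, h.symm⟩, fun ⟨g, hg, h⟩ => ⟨g, hg, h.symm⟩⟩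

lemma aut_le {G : Type} [Group G] (S : Finset G) (n : ℕ) :
    autGrowth S n ≤ (Conj.ball S n).ncard := by
  rw [aut_eq]
  exact Set.ncard_image_le (Conj.finite_ball _ _)

lemma le_aut {G : Type} [Group G] (S : Finset G) (n : ℕ) :
    (orderOf '' Conj.ball S n).ncard ≤ autGrowth S n := by
  rw [aut_eq]
  refine le_trans (le_of_eq ?_) (Set.ncard_image_le (f := fun O : Set G => sInf (orderOf '' O))
    ((Conj.finite_ball S n).image _))
  rw [Set.image_image]
  congr 1
  refine Set.image_congr fun g _ => ?_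
  have : orderOf '' MulAction.orbit (MulAut G) g = {orderOf g} := by
    ext k
    constructor
    · rintro ⟨_, ⟨φ, rfl⟩, rfl⟩
      exact MulEquiv.orderOf_eq φ g
    · rintro rfl
      exact ⟨g, MulAction.mem_orbit_self g, rfl⟩
  rw [this, csInf_singleton]

theorem result : ∃ (G : Type) (_ : Group G), Group.FG G ∧
    ∀ S : Finset G, Subgroup.closure (S : Set G) = ⊤ →
      (∀ d : ℕ, ¬ Dominated (autGrowth S) (fun n => n ^ d)) ∧
        ¬ Dominated (fun n => 2 ^ n) (autGrowth S) := by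
  classical
  let H := Subgroup.closure (gens : Set (Equiv.Perm X))
  have hH : ∀ x ∈ gens, x ∈ H := fun x hx => Subgroup.subset_closure hx
  let T : Finset H := gens.subtype (· ∈ H)
  have hT : Subgroup.closure (T : Set H) = ⊤ := Conj.closure_subtype rfl
  refine ⟨H, inferInstance, ⟨⟨T, hT⟩⟩, fun S hS => ⟨?_, ?_⟩⟩
  · rintro d ⟨c, -, hc⟩
    obtain ⟨K, hK⟩ := ball_compare T S hS
    refine not_poly (K * 10) c d fun N => le_trans ?_ (hc _)
    refine (many_orders N).trans (le_trans ?_ (le_aut S _))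
    refine Set.ncard_le_ncard ?_ ((Conj.finite_ball _ _).image _)
    rintro _ ⟨g, hg, rfl⟩
    refine ⟨⟨g, Conj.mem_of_mem_ball hH hg⟩, ?_, (Subgroup.orderOf_coe _).symm⟩
    rw [mul_assoc]
    exact hK _ ((Conj.mem_ball_subtype hH _ _).2 hg)
  · rintro ⟨c, -, hc⟩
    obtain ⟨K, hK⟩ := ball_compare S T hT
    refine not_exp (autGrowth S) K (fun ε hε => ?_) c hc
    obtain ⟨C, hC, h⟩ := subexp hε
    refine ⟨C, hC, fun n => le_trans ?_ (h _)⟩
    have h1 := (aut_le S n).trans (Set.ncard_le_ncard (hK n) (Conj.finite_ball _ _))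
    rw [Conj.ncard_ball_subtype hH] at h1
    exact_mod_cast h1

end Pool.Agent.Results.MP_b4aa87_al.AIntermediate
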